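import Pool.Agent.R82.HG.Main

/-!
A holomorphic group `T_z` on a Frechet space such that all the operators `a T_z` with `a, z ≠ 0`
are hypercyclic, but which have no common hypercyclic vector.
-/

namespace Pool.Agent.Results.MP_f7c330_an.NoCommonVector

open Filter Topology

/-- `X` is a Frechet space: complete, Hausdorff, with the topology given by a sequence of
seminorms. -/
structure IsFrechet (X : Type) [AddCommGroup X] [Module ℂ X] [UniformSpace X]
    [IsUniformAddGroup X] [ContinuousSMul ℂ X] : Prop where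
  complete : CompleteSpace X
  hausdorff : T2Space X
  seminorms : ∃ p : SeminormFamily ℂ X ℕ, WithSeminorms p

/-- `T` is a holomorphic strongly continuous operator group: `T 0 = I`, `T (z + w) = T z T w`, and
for every `x` the map `z ↦ T z x` is complex differentiable at every point. -/
structure IsHolomorphicGroup {X : Type} [AddCommGroup X] [Module ℂ X] [TopologicalSpace X]
    (T : ℂ → X →L[ℂ] X) : Prop where
  zero : T 0 = ContinuousLinearMap.id ℂ X
  add : ∀ z w : ℂ, T (z + w) = (T z).comp (T w)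
  holomorphic : ∀ (x : X) (z : ℂ), ∃ y : X,
    Tendsto (fun h : ℂ => h⁻¹ • (T (z + h) x - T z x)) (𝓝[≠] 0) (𝓝 y)

/-- `x` is a hypercyclic vector for `S`. -/
def IsHypercyclicVector {X : Type} [AddCommGroup X] [Module ℂ X] [TopologicalSpace X]
    (S : X →L[ℂ] X) (x : X) : Prop :=
  Dense (Set.range fun n : ℕ => (S ^ n) x)

instance : IsUniformAddGroup Pool.Agent.R82.HG.X :=
  inferInstanceAs (IsUniformAddGroup Pool.Agent.R82.HG.X.toAddSubgroup)

/-- There are a complex Frechet space and a holomorphic strongly continuous operator group on it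
such that `a T_z` is hypercyclic for all nonzero `a, z`, but no vector is hypercyclic for all of
them. -/
theorem result :
    ∃ (X : Type) (_ : AddCommGroup X) (_ : Module ℂ X) (_ : UniformSpace X)
      (_ : IsUniformAddGroup X) (_ : ContinuousSMul ℂ X),
      IsFrechet X ∧ ∃ T : ℂ → X →L[ℂ] X, IsHolomorphicGroup T ∧
        (∀ a z : ℂ, a ≠ 0 → z ≠ 0 → ∃ x : X, IsHypercyclicVector (a • T z) x) ∧
        ¬ ∃ x : X, ∀ a z : ℂ, a ≠ 0 → z ≠ 0 → IsHypercyclicVector (a • T z) x := by
  refine ⟨Pool.Agent.R82.HG.X, inferInstance, inferInstance, inferInstance, inferInstance,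
    inferInstance, ⟨inferInstance, inferInstance, ?_⟩, Pool.Agent.R82.HG.T, ⟨?_, ?_, ?_⟩, ?_, ?_⟩
  · refine ⟨fun m => (normSeminorm ℂ Pool.Agent.R82.HG.L1).comp (Pool.Agent.R82.HG.ev m), ?_⟩
    rw [SeminormFamily.withSeminorms_iff_nhds_eq_iInf, nhds_subtype_eq_comap, nhds_pi, Filter.pi,
      Filter.comap_iInf]
    refine iInf_congr fun m => ?_
    rw [Filter.comap_comap]
    have h1 : (𝓝 (((0 : Pool.Agent.R82.HG.X) : ℕ → Pool.Agent.R82.HG.L1) m)) =
        Filter.comap norm (𝓝 0) := (comap_norm_nhds_zero).symm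
    rw [h1, Filter.comap_comap]
    rfl
  · ext1 x
    exact Pool.Agent.R82.HG.T_zero x
  · intro z w
    ext1 x
    exact Pool.Agent.R82.HG.T_add z w x
  · intro x z
    exact ⟨_, Pool.Agent.R82.HG.T_deriv z x⟩
  · intro a z ha hz
    exact Pool.Agent.R82.HG.hyper a z ha hz
  · rintro ⟨x, hx⟩
    exact Pool.Agent.R82.HG.no_common x hx

end Pool.Agent.Results.MP_f7c330_an.NoCommonVector
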